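import Pool.Agent.R457.CohT.G

/-!
# Cohesive powers of separable extensions never have transcendence degree one

If `[α]` is transcendental over the cohesive power of `F`, the degrees of `α(i)` tend to infinity
along `C`. For infinite `F` we find, by a search for a certificate, polynomials `G_i` over `F` such
that no `n ^ 2` of the points `(r, G_i(r))`, `r` a root of a polynomial `f_i` over `F` which
vanishes at `α(i)`, lie on a curve of bidegree `< n` (`n ≤ i`), whatever the (unknown) minimal
polynomial of `α(i)` is. Then `[α(i)]` and `[G_i(α(i))]` are algebraically independent.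
-/

set_option autoImplicit false

namespace Pool.Agent.Results.MP_fdcf9c_lc.TrdegNeOne

open Filter Polynomial Pool.Agent.R626.Coh Pool.Agent.R457.CohT

section
variable {C : Set ℕ} {F K : Set ℕ} [Field F] [Field K] [Algebra F K]
  [ComputableField F] [ComputableField K] [ComputableExtension F K]

theorem ev_ge (C : Set ℕ) (n : ℕ) : ∀ᶠ i in ae C, n ≤ i := by
  have h := eventually_ge_atTop n
  rw [← Nat.cofinite_eq_atTop] at h
  exact h.filter_mono inf_le_left

/-- the class of a sequence given by a computable function of a partial computable one -/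
theorem mem_power {χ : ℕ →. ℕ} (hχ : Partrec χ) {z : ℕ → ℕ} (hz : ∀ᶠ i in ae C, z i ∈ χ i)
    {u : ℕ → K} (hu : CK u) : cls C K (fun i => u (z i)) ∈ CohesivePower C K := by
  refine ⟨fun i => u (z i), rfl, fun i => (χ i).map fun v => (u v : ℕ), hχ.map ?_, ?_⟩
  · exact (show Computable (fun b => (u b : ℕ)) from hu).comp Computable.snd
  · filter_upwards [hz] with i hi
    exact Part.mem_map _ hi

theorem exists_z {χ : ℕ →. ℕ} (h : ∀ᶠ i in ae C, (χ i).Dom) :
    ∃ z : ℕ → ℕ, ∀ᶠ i in ae C, z i ∈ χ i := by
  classical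
  refine ⟨fun i => if h : (χ i).Dom then (χ i).get h else 0, ?_⟩
  filter_upwards [h] with i hi
  simp only [dif_pos hi]
  exact Part.get_mem hi

theorem CKaeval {α : Type*} [Primcodable α] {b : α → K} (hb : CK b) {L B q : α → ℕ}
    (hL : Computable L) (hB : Computable B)
    (hq : Computable q) : CK fun a => aeval (b a) (pol F (L a) (B a) (q a)) := by
  have h : CK fun a => ∑ k ∈ Finset.range (B a),
      algebraMap F K (toK F (getc (L a) (Nat.pair (q a) k))) * b a ^ k := by
    refine CK.sum (g := fun a k =>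
      algebraMap F K (toK F (getc (L a) (Nat.pair (q a) k))) * b a ^ k) ?_ hB
    refine CK.mul (CK.emb (CK.ofCode (cgetc (hL.comp Computable.fst)
      (cpair (hq.comp Computable.fst) Computable.snd)))) (CK.pow (CK.comp hb Computable.fst)
      Computable.snd)
  refine CK_of_eq h fun a => ?_
  unfold pol
  simp only [map_sum, map_mul, aeval_C, map_pow, aeval_X]

end

/-- For every cohesive set `C` and every computable field extension `K / F` which is separable
(nothing is required when `K / F` is not algebraic), the transcendence degree of the cohesive power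
of `K` over the cohesive power of `F` is not `1`. -/
theorem result (C : Set ℕ) (hC : Cohesive C) (F K : Set ℕ) [Field F] [Field K] [Algebra F K]
    [ComputableField F] [ComputableField K] [ComputableExtension F K]
    (hsep : Algebra.IsAlgebraic F K → Algebra.IsSeparable F K) :
    letI := (powerMap C F K).toAlgebra
    Algebra.trdeg (Power C F) (Power C K) ≠ 1 := by
  classical
  let _ := (powerMap C F K).toAlgebra
  intro h
  have hnt := nontriv hC F
  -- it suffices to find two independent elements
  suffices key : ∃ (α β : ℕ → K), cls C K α ∈ CohesivePower C K ∧ cls C K β ∈ CohesivePower C K ∧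
      (∀ n : ℕ, ∀ᶠ i in ae C, ∀ q : Fin (n * n) → F, ∑ l, algebraMap F K (q l) *
      (α i ^ (l : ℕ).unpair.1 * β i ^ (l : ℕ).unpair.2) = 0 → q = 0) by
    obtain ⟨α, β, hα, hβ, hind⟩ := key
    have h1 := algInd (C := C) (F := F) (K := K) (x := ⟨cls C K α, hα⟩) (y := ⟨cls C K β, hβ⟩)
      rfl rfl hind
    have h2 := AlgebraicIndependent.cardinalMk_le_trdeg h1
    rw [h, Cardinal.mk_fin] at h2
    norm_cast at h2
  by_cases halg : Algebra.IsAlgebraic F K
  swap
  · -- a transcendental element
    obtain ⟨a, ha⟩ : ∃ a : K, ¬ IsAlgebraic F a := by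
      by_contra hcon
      push Not at hcon
      exact halg ⟨hcon⟩
    have hc1 : Partrec fun i : ℕ => Part.some i := Partrec.some
    have hc2 : ∀ᶠ i in ae C, i ∈ (Part.some i : Part ℕ) :=
      Eventually.of_forall fun i => Part.mem_some i
    refine ⟨fun _ => a, fun i => a ^ i, mem_power (z := fun i => i) (u := fun _ => a) hc1 hc2
      (CK.const a), mem_power (z := fun i => i) (u := fun i => a ^ i) hc1 hc2
      (CK.pow (CK.const a) Computable.id), fun n => ?_⟩
    filter_upwards [ev_ge C n] with i hi q hq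
    refine sparse hi (fun P _ hP => ?_) q hq
    by_contra h0
    exact ha ⟨P, h0, hP⟩
  have hs := hsep halg
  have hint : ∀ a : K, IsIntegral F a := fun a => (Algebra.IsAlgebraic.isAlgebraic a).isIntegral
  have hsepm : ∀ a : K, (minpoly F a).Separable := fun a => Algebra.IsSeparable.isSeparable F a
  -- a transcendental element of the cohesive power
  have htrd : Algebra.Transcendental (Power C F) (Power C K) := by
    apply trdeg_ne_zero_iff.1
    rw [h]
    exact one_ne_zero
  obtain ⟨x, hx⟩ := htrd.transcendental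
  obtain ⟨α, hα, φ, hφ, hφα⟩ := x.2
  have hxα : x.1 = cls C K α := hα.symm
  have htr : ∀ p : (Power C F)[X], p ≠ 0 → p.eval₂ (powerMap C F K) x ≠ 0 := by
    intro p hp h0
    exact hp ((transcendental_iff.1 hx) p h0)
  have hdeg : ∀ n, ∀ᶠ i in ae C, n < (minpoly F (α i)).natDegree := by
    intro n
    filter_upwards [unbounded hC hφ hφα hxα htr n] with i hi
    by_contra hcon
    push Not at hcon
    exact hi (degLe_iff.2 ⟨hint _, hcon⟩)
  have hαm : cls C K α ∈ CohesivePower C K := by
    rw [← hxα]; exact x.2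
  cases finite_or_infinite F with
  | inl hfin =>
    have := Fintype.ofFinite F
    let R : ℕ × ℕ → ℕ → Prop := fun p d => toK K p.2 ^ Fintype.card F ^ (d + 1) = toK K p.2
    have hR : ComputablePred fun p : (ℕ × ℕ) × ℕ => R p.1 p.2 := by
      have ha : CK fun p : (ℕ × ℕ) × ℕ => toK K p.1.2 :=
        CK.ofCode (Computable.snd.comp Computable.fst)
      exact CK.eq (CK.pow ha ((npow _).comp (cadd Computable.snd (Computable.const 1)))) ha
    obtain ⟨χ, hχ1, hχ2⟩ := psearch hφ hR
    have hex : ∀ i, ∃ d, R (i, (α i : ℕ)) d := by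
      intro i
      refine ⟨(minpoly F (α i)).natDegree - 1, ?_⟩
      have hpos := minpoly.natDegree_pos (hint (α i))
      simp only [R, toK_coe]
      rw [finite_pow (hint _), Nat.sub_add_cancel hpos]
    have hdom : ∀ᶠ i in ae C, (χ i).Dom := by
      filter_upwards [hφα] with i hi
      obtain ⟨w, hw, -⟩ := psearch_mem hχ2 hi (hex i)
      exact Part.dom_iff_mem.2 ⟨_, hw⟩
    obtain ⟨z, hz⟩ := exists_z hdom
    refine ⟨α, fun i => toK K (z i).unpair.1 ^ Nat.sqrt ((z i).unpair.2 + 1), hαm,
      mem_power hχ1 hz (u := fun v => toK K v.unpair.1 ^ Nat.sqrt (v.unpair.2 + 1)) ?_,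
      fun n => ?_⟩
    · exact CK.pow (CK.ofCode (cu1 Computable.id)) (Primrec.nat_sqrt.to_comp.comp
        (cadd (cu2 Computable.id) (Computable.const 1)))
    filter_upwards [hz, hφα, hdeg (n * n)] with i hi1 hi2 hi3 q hq
    obtain ⟨a, ha, d, hz1, hz2, hz3⟩ := (hχ2 i (z i)).1 hi1
    obtain rfl : a = (α i : ℕ) := Part.mem_unique ha hi2
    have hpos := minpoly.natDegree_pos (hint (α i))
    simp only [R, toK_coe] at hz2 hz3
    rw [finite_pow (hint _)] at hz2
    have hd : d + 1 = (minpoly F (α i)).natDegree := by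
      have h1 := Nat.le_of_dvd (Nat.succ_pos d) hz2
      by_contra hne
      refine hz3 ((minpoly F (α i)).natDegree - 1) (by omega) ?_
      rw [finite_pow (hint _), Nat.sub_add_cancel hpos]
    simp only [hz1, Nat.unpair_pair, toK_coe, hd] at hq
    refine sparse (k := Nat.sqrt (minpoly F (α i)).natDegree) ?_ (fun P hP1 hP2 => ?_) q hq
    · rw [Nat.le_sqrt]; exact hi3.le
    · exact eq_zero_of_natDegree_lt (hP1.trans_le (Nat.sqrt_le _)) hP2
  | inr hinf =>
    obtain ⟨e, he1, he2⟩ := exists_enum F
    let R : ℕ × ℕ → ℕ → Prop := fun p w =>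
      aeval (toK K p.2) (fp F w.unpair.2.unpair.2.unpair.2 w.unpair.1) = 0 ∧
      ChkB F e p.1 w.unpair.1 w.unpair.2.unpair.1 w.unpair.2.unpair.2.unpair.1
        w.unpair.2.unpair.2.unpair.2 ∧
      ChkC F e p.1 w.unpair.1 w.unpair.2.unpair.1 w.unpair.2.unpair.2.unpair.1
        w.unpair.2.unpair.2.unpair.2
    have hR : ComputablePred fun p : (ℕ × ℕ) × ℕ => R p.1 p.2 := by
      have ha : CK fun p : (ℕ × ℕ) × ℕ => toK K p.1.2 :=
        CK.ofCode (Computable.snd.comp Computable.fst)
      have hi : Computable fun p : (ℕ × ℕ) × ℕ => p.1.1 := Computable.fst.comp Computable.fst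
      have hM : Computable fun p : (ℕ × ℕ) × ℕ => p.2.unpair.1 := cu1 Computable.snd
      have hm : Computable fun p : (ℕ × ℕ) × ℕ => p.2.unpair.2.unpair.1 :=
        cu1 (cu2 Computable.snd)
      have hB : Computable fun p : (ℕ × ℕ) × ℕ => p.2.unpair.2.unpair.2.unpair.1 :=
        cu1 (cu2 (cu2 Computable.snd))
      have hL : Computable fun p : (ℕ × ℕ) × ℕ => p.2.unpair.2.unpair.2.unpair.2 :=
        cu2 (cu2 (cu2 Computable.snd))
      exact cp_and (CK.eq (CKaeval ha hL (cadd hM (Computable.const 1)) (Computable.const _))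
        (CK.const 0)) (cp_and (cChkB he1 hi hM hm hB hL) (cChkC he1 hi hM hm hB hL))
    obtain ⟨χ, hχ1, hχ2⟩ := psearch hφ hR
    have hex : ∀ i, ∃ w, R (i, (α i : ℕ)) w := by
      intro i
      obtain ⟨M, m, B, L, h1, h2, h3⟩ := exists_cert e i (hint (α i)) (hsepm (α i))
      refine ⟨Nat.pair M (Nat.pair m (Nat.pair B L)), ?_⟩
      simp only [R, Nat.unpair_pair, toK_coe]
      exact ⟨h1, h2, h3⟩
    have hdom : ∀ᶠ i in ae C, (χ i).Dom := by
      filter_upwards [hφα] with i hi
      obtain ⟨w, hw, -⟩ := psearch_mem hχ2 hi (hex i)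
      exact Part.dom_iff_mem.2 ⟨_, hw⟩
    obtain ⟨z, hz⟩ := exists_z hdom
    refine ⟨α, fun i => aeval (toK K (z i).unpair.1)
      (Gp F (z i).unpair.2.unpair.2.unpair.2.unpair.2 (z i).unpair.2.unpair.2.unpair.2.unpair.1),
      hαm, mem_power hχ1 hz (u := fun v => aeval (toK K v.unpair.1)
      (Gp F v.unpair.2.unpair.2.unpair.2.unpair.2 v.unpair.2.unpair.2.unpair.2.unpair.1)) ?_,
      fun n => ?_⟩
    · exact CKaeval (CK.ofCode (cu1 Computable.id)) (cu2 (cu2 (cu2 (cu2 Computable.id))))
        (cu1 (cu2 (cu2 (cu2 Computable.id)))) (Computable.const _)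
    filter_upwards [hz, hφα, hdeg (n * n), ev_ge C n] with i hi1 hi2 hi3 hi4 q hq
    obtain ⟨a, ha, w, hz1, hz2, -⟩ := (hχ2 i (z i)).1 hi1
    obtain rfl : a = (α i : ℕ) := Part.mem_unique ha hi2
    simp only [hz1, Nat.unpair_pair, toK_coe] at hq
    simp only [R, toK_coe] at hz2
    exact sound he2 (hint _) (hsepm _) hz2.1 hz2.2.1 hz2.2.2 hi4 hi3.le q hq

end Pool.Agent.Results.MP_fdcf9c_lc.TrdegNeOne
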